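import Pool.Agent.RatApprox.CircleE2

/-!
MP_817a4c_co, partial result: polygons whose vertices lie on a circle, with the exception of the
centre of the circle, one further arbitrary point and its inverse point, can be approximated
arbitrarily closely by polygons all of whose sides and diagonals are rational.  The index set of
the family of vertices is arbitrary, so that the whole circle together with these three points
can be approximated.
-/

set_option autoImplicit false

namespace Pool.Agent.Results.MP_817a4c_co.CirclePlusThree

theorem result {ι : Type*} (O V : EuclideanSpace ℝ (Fin 2)) (R : ℝ) (hR : 0 < R)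
    (P : ι → EuclideanSpace ℝ (Fin 2))
    (hP : ∀ i, P i ∈ Metric.sphere O R ∪ {O, V, EuclideanGeometry.inversion O R V})
    (ε : ℝ) (hε : 0 < ε) :
    ∃ Q : ι → EuclideanSpace ℝ (Fin 2), (∀ i, dist (P i) (Q i) < ε) ∧
      ∀ i j, ∃ q : ℚ, dist (Q i) (Q j) = (q : ℝ) := by
  obtain ⟨X, hX, h⟩ := Pool.Agent.RatApprox.circle_E2 O V hR ε hε
  choose Q hQ using fun i => h (P i) (hP i)
  exact ⟨Q, fun i => (hQ i).2, fun i j => hX _ (hQ i).1 _ (hQ j).1⟩

end Pool.Agent.Results.MP_817a4c_co.CirclePlusThree
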